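import Mathlib
import Pool.Agent.Q133.PIntDense

set_option autoImplicit false

/-!
# First-order asymptotics of the `p`-intersection number of `K(n × k)`, `k → ∞` (Q1)
-/

namespace Pool.Agent.Results.MP_890668_co.AsymptoticsQ1

open Filter Q133.PInt

/-- For fixed `p ≥ 1` and `n ≥ 2`, `θ_p(K(n × k)) ~ k² / p` as `k → ∞`; moreover
`θ_p(K(n × k)) = k (k - 1) / p` for every prime `k ≡ 1 (mod p)` with `k > n p`. -/
theorem result (p n : ℕ) (hp : 1 ≤ p) (hn : 2 ≤ n) :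
    Tendsto (fun k : ℕ => (theta p (KK n k) : ℝ) / ((k : ℝ) ^ 2 / p)) atTop (nhds 1) ∧
    ∀ k : ℕ, k.Prime → k ≡ 1 [MOD p] → n * p < k → p * theta p (KK n k) = k * (k - 1) :=
  ⟨asymptotics hn hp, fun _ hk h1 h2 => exact_prime hn hp hk h1 h2⟩

end Pool.Agent.Results.MP_890668_co.AsymptoticsQ1
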